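import Pool.Agent.PDZ.Stmts
import Pool.Agent.Helper42_PDS.Seq

/-!
# Squad PDZ (MP_afe9e9_co), row FIN: from multisets to sequences
-/

set_option autoImplicit false

namespace Pool.Agent.PDZ.H30

open Multiset

/-- the number of the entries with a property as a sum -/
theorem nu_sum {n : ℕ} (v : Fin n → ℕ) (p : ℕ → Prop) [DecidablePred p] :
    nu v p = ∑ i, if p (v i) then 1 else 0 := by
  unfold nu
  rw [Nat.card_eq_fintype_card, Fintype.card_subtype, Finset.card_filter]

theorem sm_filter {n : ℕ} (v : Fin n → ℕ) (k : ℕ) (p : ℕ → Prop) [DecidablePred p] :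
    sm k ((((Finset.univ : Finset (Fin n)).val.map v)).filter p) =
      ∑ i, if p (v i) then v i - k else 0 := by
  unfold sm
  rw [Multiset.filter_map, Multiset.map_map, ← Finset.filter_val]
  have h : ((Finset.univ.filter (p ∘ v)).val.map ((fun x => x - k) ∘ v)).sum =
      ∑ i ∈ Finset.univ.filter (p ∘ v), (v i - k) := rfl
  rw [h, Finset.sum_filter]
  rfl

theorem card_filter' {n : ℕ} (v : Fin n → ℕ) (p : ℕ → Prop) [DecidablePred p] :
    card ((((Finset.univ : Finset (Fin n)).val.map v)).filter p) = nu v p := by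
  rw [nu_sum, Multiset.filter_map, Multiset.card_map, ← Finset.filter_val]
  have h : card (Finset.univ.filter (p ∘ v)).val = (Finset.univ.filter (p ∘ v)).card := rfl
  rw [h, Finset.card_filter]
  rfl

theorem count_nu {n : ℕ} (v : Fin n → ℕ) (d : ℕ) :
    (((Finset.univ : Finset (Fin n)).val.map v)).count d = nu v (· = d) := by
  rw [← card_filter', Multiset.count_eq_card_filter_eq]
  congr 1
  apply Multiset.filter_congr
  intro x _
  exact eq_comm

theorem pz_zero : Pz {0} := by
  refine ⟨Fin 1, inferInstance, ⊥, ⟨⟨fun _ => 0, fun _ _ _ => 0, ?_, ?_, ?_, ?_, ?_, ?_, ?_⟩⟩, ?_⟩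
  · intro a b _
    exact Subsingleton.elim _ _
  · intro u v huv
    exact huv.elim
  · intro u v huv
    exact huv.elim
  · intro u v huv
    exact huv.elim
  · intro u v huv
    exact huv.elim
  · intro u v w huv
    exact huv.elim
  · intro u v u' v' huv
    exact huv.elim
  · have h1 : (Finset.univ : Finset (Fin 1)).val = {0} := rfl
    rw [h1, Multiset.map_singleton]
    congr 1
    unfold PDS.dg
    have h2 : (⊥ : SimpleGraph (Fin 1)).neighborSet 0 = ∅ := by
      ext x
      simp
    rw [h2, Set.ncard_empty]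

theorem pz_zeros (z : ℕ) : Pz (replicate z 0) := by
  induction z with
  | zero => exact pz_of_fil fil_nil
  | succ z ih =>
    have h := pz_add pz_zero ih
    rw [Multiset.singleton_add] at h
    rwa [Multiset.replicate_succ]

/-- SST with entries 0 -/
theorem sst' (h : SstStmt) : ∃ C : ℕ, ∀ (Δ : ℕ) (D : Multiset ℕ), (∀ v ∈ D, v ≤ Δ) →
    D.sum % 2 = 0 →
    3 * sm 6 D + C * Δ ≤ 3 * (UU D + D.count 5) + 6 * D.count 3 +
      min (3 * D.count 3)
        (sm 6 (sml D) + (6 * card (big D) - (card (odd D) - UU D) - D.count 5)) → Pz D := by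
  classical
  obtain ⟨C, hC⟩ := h
  refine ⟨C, ?_⟩
  intro Δ D hD hsum hcon
  set F := D.filter (fun x => ¬ x = 0) with hF
  have hsplit : D = replicate (D.count 0) 0 + F := by
    have := Multiset.filter_add_not (fun x => x = 0) D
    rw [Multiset.filter_eq'] at this
    exact this.symm
  have hFm : ∀ x ∈ F, 1 ≤ x ∧ x ≤ Δ := by
    intro x hx
    rw [hF, Multiset.mem_filter] at hx
    exact ⟨Nat.one_le_iff_ne_zero.2 hx.2, hD x hx.1⟩
  generalize D.count 0 = z at hsplit
  rw [hsplit] at hsum hcon ⊢
  refine pz_add (pz_zeros z) (hC Δ F hFm ?_ ?_)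
  · simpa using hsum
  · have e1 : sm 6 (replicate z 0 + F) = sm 6 F := by
      unfold sm
      simp
    have e2 : ∀ d, d ≠ 0 → (replicate z 0 + F).count d = F.count d := by
      intro d hd
      rw [Multiset.count_add, Multiset.count_replicate, if_neg (Ne.symm hd), zero_add]
    have e3 : UU (replicate z 0 + F) = UU F := by
      unfold UU
      rw [e2 1 (by norm_num), e2 2 (by norm_num), e2 4 (by norm_num)]
    have e4 : ∀ (p : ℕ → Prop) [DecidablePred p], ¬ p 0 →
        (replicate z 0 + F).filter p = F.filter p := by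
      intro p _ hp
      rw [Multiset.filter_add]
      have : (replicate z 0).filter p = 0 := by
        rw [Multiset.filter_eq_nil]
        intro a ha
        rw [Multiset.eq_of_mem_replicate ha]
        exact hp
      rw [this, zero_add]
    have e5 : sml (replicate z 0 + F) = sml F := e4 _ (by norm_num)
    have e6 : big (replicate z 0 + F) = big F := e4 _ (by norm_num)
    have e7 : odd (replicate z 0 + F) = odd F := e4 _ (by norm_num)
    rw [e1, e3, e5, e6, e7, e2 5 (by norm_num), e2 3 (by norm_num)] at hcon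
    exact hcon

theorem fin (h : SstStmt) : FinStmt := by
  classical
  obtain ⟨C, hC⟩ := sst' h
  refine ⟨12 * C, ?_⟩
  intro n v Δ hv hpar hcon
  set D : Multiset ℕ := (Finset.univ : Finset (Fin n)).val.map v with hD
  have hDm : ∀ (Δ' : ℕ), (∀ i, v i ≤ Δ') → ∀ x ∈ D, x ≤ Δ' := by
    intro Δ' hv' x hx
    rw [hD, Multiset.mem_map] at hx
    obtain ⟨i, -, rfl⟩ := hx
    exact hv' i
  have hsum : D.sum % 2 = 0 := hpar
  have e1 : sm 6 D = ∑ i, (v i - 6) := by
    unfold sm
    rw [hD, Multiset.map_map]
    rfl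
  have e2 : UU D = nu v (· = 1) + 2 * nu v (· = 2) + 2 * nu v (· = 4) := by
    unfold UU
    rw [hD, count_nu, count_nu, count_nu]
  have e3 : D.count 5 = nu v (· = 5) := count_nu v 5
  have e4 : D.count 3 = nu v (· = 3) := count_nu v 3
  have e5 : sm 6 (sml D) = ∑ i, (if v i ≤ 12 then v i - 6 else 0) := by
    unfold sml
    rw [hD, sm_filter]
    refine Finset.sum_congr rfl ?_
    intro i _
    split_ifs with h1 h2 h3
    · rfl
    · exact absurd h1.2 h2
    · omega
    · rfl
  have e6 : card (big D) = nu v (13 ≤ ·) := card_filter' v _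
  have e7 : card (odd D) = nu v (fun x => 13 ≤ x ∧ x % 2 = 1) := card_filter' v _
  have hPz : Pz D := by
    rcases hcon with h1 | ⟨h1, h2, h3, h4⟩ | ⟨h1, h2⟩
    · refine hC Δ D (hDm Δ hv) hsum ?_
      rw [e1, e2, e3, e4, e5, e6, e7]
      refine le_trans ?_ h1
      have : C * Δ ≤ 12 * C * Δ := Nat.mul_le_mul_right _ (by omega)
      omega
    · refine hC Δ D (hDm Δ hv) hsum ?_
      rw [e1, e2, e3, e4, e5, e6, e7]
      have hCC : 3 * (C * Δ) ≤ 12 * C * Δ := by
        have : 12 * C * Δ = 3 * (C * Δ) + 9 * (C * Δ) := by ring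
        omega
      have f1 : ∑ i, (v i - 6) = ∑ i, (v i - 8) + 2 * nu v (12 ≤ ·) := by
        rw [nu_sum, Finset.mul_sum, ← Finset.sum_add_distrib]
        refine Finset.sum_congr rfl ?_
        intro i _
        rcases h1 i with h5 | h5
        · rw [if_neg (by omega)]
          omega
        · rw [if_pos h5]
          omega
      have f2 : ∑ i, (if v i ≤ 12 then v i - 6 else 0) + 6 * nu v (13 ≤ ·) =
          6 * nu v (12 ≤ ·) := by
        rw [nu_sum, nu_sum, Finset.mul_sum, Finset.mul_sum, ← Finset.sum_add_distrib]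
        refine Finset.sum_congr rfl ?_
        intro i _
        rcases h1 i with h5 | h5
        · rw [if_pos (by omega), if_neg (by omega), if_neg (by omega)]
          omega
        · by_cases h6 : v i ≤ 12
          · rw [if_pos h6, if_neg (by omega), if_pos h5]
            omega
          · rw [if_neg h6, if_pos (by omega), if_pos h5, zero_add]
      have f3 : nu v (fun x => 12 ≤ x ∧ x % 2 = 1) = nu v (fun x => 13 ≤ x ∧ x % 2 = 1) := by
        rw [nu_sum, nu_sum]
        refine Finset.sum_congr rfl ?_
        intro i _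
        by_cases h6 : 13 ≤ v i ∧ v i % 2 = 1
        · rw [if_pos h6, if_pos (by omega)]
        · rw [if_neg h6, if_neg (by omega)]
      have f4 : nu v (· = 5) = 0 := by
        rw [nu_sum]
        refine Finset.sum_eq_zero ?_
        intro i _
        rw [if_neg]
        rcases h1 i with h5 | h5 <;> omega
      have f5 : nu v (fun x => 13 ≤ x ∧ x % 2 = 1) ≤ nu v (13 ≤ ·) := by
        rw [nu_sum, nu_sum]
        refine Finset.sum_le_sum ?_
        intro i _
        by_cases h6 : 13 ≤ v i ∧ v i % 2 = 1
        · rw [if_pos h6, if_pos h6.1]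
        · rw [if_neg h6]
          exact Nat.zero_le _
      rw [f3] at h4
      rw [f1] at h2 ⊢
      rw [f4]
      generalize nu v (fun x => 13 ≤ x ∧ x % 2 = 1) = o at *
      generalize nu v (13 ≤ ·) = b at *
      generalize nu v (12 ≤ ·) = H at *
      generalize ∑ i, (if v i ≤ 12 then v i - 6 else 0) = s at *
      generalize ∑ i, (v i - 8) = t at *
      generalize nu v (· = 1) = n1 at *
      generalize nu v (· = 2) = n2 at *
      generalize nu v (· = 3) = n3 at *
      generalize nu v (· = 4) = n4 at *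
      generalize 12 * C * Δ = c12 at *
      generalize C * Δ = c at *
      omega
    · refine hC 12 D (hDm 12 h1) hsum ?_
      rw [e1, e2, e3, e4, e5, e6, e7]
      have f2 : ∑ i, (if v i ≤ 12 then v i - 6 else 0) = ∑ i, (v i - 6) := by
        refine Finset.sum_congr rfl ?_
        intro i _
        rw [if_pos (h1 i)]
      have f3 : nu v (13 ≤ ·) = 0 := by
        rw [nu_sum]
        refine Finset.sum_eq_zero ?_
        intro i _
        rw [if_neg]
        have := h1 i
        omega
      rw [f2, f3]
      generalize ∑ i, (v i - 6) = s at *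
      generalize nu v (fun x => 13 ≤ x ∧ x % 2 = 1) = o at *
      generalize nu v (· = 1) = n1 at *
      generalize nu v (· = 2) = n2 at *
      generalize nu v (· = 3) = n3 at *
      generalize nu v (· = 4) = n4 at *
      generalize nu v (· = 5) = n5 at *
      omega
  obtain ⟨V, hV, G, hG, hdg⟩ := hPz
  obtain ⟨e, he⟩ := PDS.H42.exists_equiv v (PDS.dg G) hdg.symm
  refine ⟨G.comap e, PDS.H42.planar_comap e G hG, ?_⟩
  intro i
  rw [← he i, ← PDS.H42.dg_comap]
  rfl

end Pool.Agent.PDZ.H30
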